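import Pool.Agent.helper84.WZ.SpecA

/-!
# Project wz, module SPC: spines may be put on top
-/

set_option autoImplicit false

namespace WZ

open Filter

theorem SPC (hONE : ONE_stmt) : SPC_stmt := by
  intro T S σ β δ r s x y hrs hSp hDX
  induction hSp with
  | refl β =>
    have e : y + Pi.single r (0 : ℕ × ℕ).1 + Pi.single s (0 : ℕ × ℕ).2 = y := by
      simp
    rw [e]
    exact hDX
  | @rd β γ δ x h1 _ ih =>
    have h2 := Sys.DX.rd (q := r) h1 le_rfl (ih hDX)
    have e : y + Pi.single r (x + (1, 0)).1 + Pi.single s (x + (1, 0)).2 =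
        y + Pi.single r x.1 + Pi.single s x.2 + Pi.single r 1 := by
      have h3 : (Pi.single r (x + (1, 0)).1 : ℕ → ℕ) = Pi.single r x.1 + Pi.single r 1 := by
        rw [← Pi.single_add]
        rfl
      have h4 : (Pi.single s (x + (1, 0)).2 : ℕ → ℕ) = Pi.single s x.2 := by
        rfl
      rw [h3, h4]
      abel
    rw [e]
    exact h2
  | @lf β α γ δ n x h1 hd _ ih =>
    have h2 := Sys.DX.sp h1 ((hONE T S σ α r (Pi.single r n)).2 ⟨n, rfl, hd⟩) (ih hDX)
    have e : y + Pi.single r (x + (n, 0)).1 + Pi.single s (x + (n, 0)).2 =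
        Pi.single r n + (y + Pi.single r x.1 + Pi.single s x.2) := by
      have h3 : (Pi.single r (x + (n, 0)).1 : ℕ → ℕ) = Pi.single r x.1 + Pi.single r n := by
        rw [← Pi.single_add]
        rfl
      have h4 : (Pi.single s (x + (n, 0)).2 : ℕ → ℕ) = Pi.single s x.2 := by
        rfl
      rw [h3, h4]
      abel
    rw [e]
    exact h2
  | @rt β α γ δ n x h1 hd _ ih =>
    have h2 := Sys.DX.sp h1 (ih hDX) ((hONE T S σ γ s (Pi.single s n)).2 ⟨n, rfl, hd⟩)
    have e : y + Pi.single r (x + (0, n)).1 + Pi.single s (x + (0, n)).2 =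
        y + Pi.single r x.1 + Pi.single s x.2 + Pi.single s n := by
      have h3 : (Pi.single s (x + (0, n)).2 : ℕ → ℕ) = Pi.single s x.2 + Pi.single s n := by
        rw [← Pi.single_add]
        rfl
      have h4 : (Pi.single r (x + (0, n)).1 : ℕ → ℕ) = Pi.single r x.1 := by
        rfl
      rw [h3, h4]
      abel
    rw [e]
    exact h2

end WZ
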